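import Pool.Agent.Lib.TXN.Basic

/-!
# Norms and ties: the abstract lemma with a shift of the order

Norms `N x`, decreasing in `x`, `N x (F w) = p N (⌈x / p⌉) w`; operators with
`N (x + A) (δ w) ≤ N x w`.
-/

set_option autoImplicit false

open Submodule

namespace Pool.Agent.TXN

universe u v

variable {k : Type u} {Λ : Type v} [Field k] {p : ℕ} [hp : Fact p.Prime] [CharP k p]
  [AddCommGroup Λ] [Module k Λ]

/-- `⌈x / p⌉`. -/
def cx (p x : ℕ) : ℕ := (x + (p - 1)) / p

theorem cx_mono (p : ℕ) {x y : ℕ} (h : x ≤ y) : cx p x ≤ cx p y :=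
  Nat.div_le_div_right (by omega)

theorem cx_le {p : ℕ} (hp : 2 ≤ p) (x : ℕ) : cx p x ≤ x := by
  unfold cx
  rcases Nat.eq_zero_or_pos x with rfl | h
  · rw [zero_add, Nat.div_eq_of_lt (by omega)]
  · refine Nat.div_le_of_le_mul ?_
    obtain ⟨q, rfl⟩ : ∃ q, p = q + 1 := ⟨p - 1, by omega⟩
    rw [Nat.add_sub_cancel]
    nlinarith

theorem two_cx_le {p : ℕ} (hp : 2 ≤ p) (x : ℕ) : 2 * cx p x ≤ x + 2 := by
  unfold cx
  have h1 : (x + (p - 1)) / p * p ≤ x + (p - 1) := Nat.div_mul_le_self _ _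
  set q := (x + (p - 1)) / p with hq
  rcases Nat.eq_zero_or_pos q with h0 | h0
  · omega
  · obtain ⟨r, rfl⟩ : ∃ r, p = r + 2 := ⟨p - 2, by omega⟩
    have h2 : q * (r + 2) = q * r + 2 * q := by ring
    have h3 : r ≤ q * r := Nat.le_mul_of_pos_left r h0
    omega

theorem cx_mul {p : ℕ} (hp : 0 < p) (x : ℕ) : cx p (p * x) = x := by
  unfold cx
  rw [Nat.mul_add_div hp, Nat.div_eq_of_lt (by omega), add_zero]

/-- A decreasing family of norms. -/
structure SN (p : ℕ) [Fact p.Prime] [CharP k p] (F : Λ →ₛₗ[frobenius k p] Λ) (N : ℕ → Λ → ℝ) :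
    Prop where
  nonneg : ∀ x w, 0 ≤ N x w
  anti : ∀ x y w, x ≤ y → N y w ≤ N x w
  add : ∀ x w w', N x (w + w') ≤ max (N x w) (N x w')
  smul : ∀ x (c : k) w, N x (c • w) ≤ N x w
  frob : ∀ x w, N x (F w) = p * N (cx p x) w
  pos : ∀ x w, N x w = 0 → w = 0

variable {F : Λ →ₛₗ[frobenius k p] Λ} {N : ℕ → Λ → ℝ}

namespace SN

theorem zero (h : SN p F N) (x : ℕ) : N x 0 = 0 := by
  have h1 := h.frob x 0
  rw [map_zero] at h1
  have h2 : (1 : ℝ) < p := by exact_mod_cast hp.out.one_lt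
  have h3 := h.nonneg x 0
  have h4 := h.anti _ _ (0 : Λ) (cx_le hp.out.two_le x)
  nlinarith

theorem neg (h : SN p F N) (x : ℕ) (w : Λ) : N x (-w) = N x w := by
  have h1 : ∀ w, N x (-w) ≤ N x w := fun w => by
    have h2 := h.smul x (-1) w
    rwa [neg_smul, one_smul] at h2
  exact le_antisymm (h1 w) (by have h2 := h1 (-w); rwa [neg_neg] at h2)

/-- The ball of radius `c`. -/
def ball (h : SN p F N) (x : ℕ) (c : ℝ) (hc : 0 ≤ c) : Submodule k Λ where
  carrier := {w | N x w ≤ c}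
  add_mem' := fun {a b} ha hb => (h.add x a b).trans (max_le ha hb)
  zero_mem' := by
    show N x 0 ≤ c
    rw [h.zero]
    exact hc
  smul_mem' := fun a w hw => (h.smul x a w).trans hw

/-- The open ball of radius `c`. -/
def obal (h : SN p F N) (x : ℕ) (c : ℝ) (hc : 0 < c) : Submodule k Λ where
  carrier := {w | N x w < c}
  add_mem' := fun {a b} ha hb => (h.add x a b).trans_lt (max_lt ha hb)
  zero_mem' := by
    show N x 0 < c
    rw [h.zero]
    exact hc
  smul_mem' := fun a w hw => (h.smul x a w).trans_lt hw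

theorem mem_ball {h : SN p F N} {x : ℕ} {c : ℝ} {hc : 0 ≤ c} {w : Λ} :
    w ∈ h.ball x c hc ↔ N x w ≤ c := Iff.rfl

theorem mem_obal {h : SN p F N} {x : ℕ} {c : ℝ} {hc : 0 < c} {w : Λ} :
    w ∈ h.obal x c hc ↔ N x w < c := Iff.rfl

theorem ball_mono {h : SN p F N} {x : ℕ} {c c' : ℝ} {hc : 0 ≤ c} {hc' : 0 ≤ c'} (hcc : c ≤ c') :
    h.ball x c hc ≤ h.ball x c' hc' := fun _ hw => le_trans (mem_ball.1 hw) hcc

theorem of_sub (h : SN p F N) (x : ℕ) (a : k) (w : Λ) :
    p * N (cx p x) w ≤ N x (F w - a • w) := by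
  have h2 : (1 : ℝ) < p := by exact_mod_cast hp.out.one_lt
  rcases (h.nonneg (cx p x) w).eq_or_lt with h0 | h0
  · rw [← h0, mul_zero]
    exact h.nonneg _ _
  · have e : F w = (F w - a • w) + a • w := by abel
    have h3 : N x (F w) ≤ max (N x (F w - a • w)) (N x (a • w)) := by
      conv_lhs => rw [e]
      exact h.add _ _ _
    rw [h.frob] at h3
    rcases le_max_iff.1 h3 with h4 | h4
    · exact h4
    · exfalso
      have h5 := h.smul x a w
      have h6 := h.anti _ _ w (cx_le hp.out.two_le x)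
      nlinarith

end SN

/-- Pigeonhole. -/
theorem exists_eq_of_mono {T : Submodule k Λ} [FiniteDimensional k (Λ ⧸ T)]
    {Z : ℕ → Submodule k Λ} (hT : ∀ a, T ≤ Z a) (hm : ∀ a, Z a ≤ Z (a + 1)) :
    ∃ a ≤ Module.finrank k (Λ ⧸ T), Z a = Z (a + 1) := by
  by_contra hcon
  push Not at hcon
  have h1 : ∀ a ≤ Module.finrank k (Λ ⧸ T) + 1, a ≤ Module.finrank k ((Z a).map T.mkQ) := by
    intro a
    induction a with
    | zero => exact fun _ => Nat.zero_le _
    | succ a ih =>
      intro ha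
      have h2 := ih (by omega)
      have h3 : (Z a).map T.mkQ < (Z (a + 1)).map T.mkQ := by
        refine lt_of_le_of_ne (Submodule.map_mono (hm a)) fun h4 => hcon a (by omega) ?_
        have h5 := congrArg (Submodule.comap T.mkQ) h4
        rwa [Submodule.comap_map_mkQ, Submodule.comap_map_mkQ, sup_eq_right.2 (hT a),
          sup_eq_right.2 (hT (a + 1))] at h5
      have h6 := Submodule.finrank_lt_finrank_of_lt h3
      omega
  have h2 := h1 _ le_rfl
  have h3 := Submodule.finrank_le ((Z (Module.finrank k (Λ ⧸ T) + 1)).map T.mkQ)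
  omega

/-- **Lemma N.** -/
theorem exists_sat_shift [IsAlgClosed k] (h : SN p F N) {G : Set Λ} (hGf : G.Finite)
    (hG : ∀ S : Submodule k Λ, (∀ w ∈ S, F w ∈ S) → G ⊆ S → S = ⊤) (hΛ : ∃ w : Λ, w ≠ 0)
    {D : Set (Λ →ₗ[k] Λ)} {A x₀ : ℕ} (hD : ∀ δ ∈ D, ∀ x, x₀ ≤ x → ∀ w, N (x + A) (δ w) ≤ N x w)
    (hV : ∀ δ ∈ D, ∃ δ' ∈ D, ∀ w, δ (F w) = F (δ' w)) {e : ℕ}
    (he : ∀ δ ∈ D, ∀ w, δ (F^[e] w) = 0) {n : ℕ} (hnil : (DS D)^[n] ⊤ = ⊥) :
    ∃ S : Submodule k Λ, S ≠ ⊤ ∧ (∀ w ∈ S, F w ∈ S) ∧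
      (∀ (a : k) (w : Λ), F w - a • w ∈ S → w ∈ S) ∧ (∀ δ ∈ D, ∀ w, δ w ∈ S) ∧
      ((∃ w : Λ, ∀ w', w ≠ F w') → ∃ w : Λ, ∀ s ∈ S, ∀ w', w ≠ s + F w') := by
  have hsurj : RingHomSurjective (frobenius k p) :=
    ⟨fun c => by
      obtain ⟨d, hd⟩ := IsAlgClosed.exists_pow_nat_eq c hp.out.pos
      exact ⟨d, hd⟩⟩
  have hp2 := hp.out.two_le
  have hp1 : (1 : ℝ) < p := by exact_mod_cast hp.out.one_lt
  have hp0 : (0 : ℝ) < p := by linarith
  obtain ⟨w₀, hw₀⟩ := hΛ
  have htop : (⊥ : Submodule k Λ) ≠ ⊤ := fun h0 => hw₀ (by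
    have h1 : w₀ ∈ (⊥ : Submodule k Λ) := h0 ▸ Submodule.mem_top
    simpa using h1)
  set T : Submodule k Λ := (⊤ : Submodule k Λ).map F with hT
  -- `Λ / F Λ` is of finite dimension
  have hfin : FiniteDimensional k (Λ ⧸ T) := by
    have h1 : Submodule.span k (T.mkQ '' G) = ⊤ := by
      have h2 : (Submodule.span k (T.mkQ '' G)).comap T.mkQ = ⊤ := by
        refine hG _ (fun w _ => ?_) fun g hg => Submodule.subset_span ⟨g, hg, rfl⟩
        rw [Submodule.mem_comap]
        have h3 : T.mkQ (F w) = 0 := by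
          rw [Submodule.mkQ_apply, Submodule.Quotient.mk_eq_zero]
          exact Submodule.mem_map_of_mem Submodule.mem_top
        rw [h3]
        exact zero_mem _
      rw [eq_top_iff]
      intro q _
      obtain ⟨w, rfl⟩ := T.mkQ_surjective q
      have h3 : w ∈ (Submodule.span k (T.mkQ '' G)).comap T.mkQ := h2 ▸ Submodule.mem_top
      exact h3
    exact ⟨Submodule.fg_def.2 ⟨_, hGf.image _, h1⟩⟩
  set b := Module.finrank k (Λ ⧸ T) with hb
  -- the order
  obtain ⟨x, hx1, hx2⟩ : ∃ x, x₀ ≤ cx p (x + A) ∧ cx p (x + A) + (b + 1) * A ≤ x := by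
    refine ⟨p * x₀ + (2 * b + 3) * A + 2, ?_, ?_⟩
    · calc x₀ = cx p (p * x₀) := (cx_mul hp.out.pos x₀).symm
        _ ≤ _ := cx_mono p (by omega)
    · have h1 := two_cx_le hp2 (p * x₀ + (2 * b + 3) * A + 2 + A)
      have e1 : (2 * b + 3) * A = 2 * (b * A) + 3 * A := by ring
      have e2 : (b + 1) * A = b * A + A := by ring
      rw [e1] at h1 ⊢
      rw [e2]
      omega
  have hx3 : cx p x ≤ cx p (x + A) := cx_mono p (by omega)
  -- some ball generates
  obtain ⟨c₁, hc₁, hgen₁⟩ : ∃ (c : ℝ) (hc : 0 ≤ c), gen F (h.ball x c hc) = ⊤ := by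
    obtain ⟨b, hb⟩ := (hGf.image (N x)).bddAbove
    refine ⟨max b 0, le_max_right _ _, hG _ (fun w hw => gen_stable hw) fun g hg => ?_⟩
    exact le_gen _ ((hb ⟨g, hg, rfl⟩).trans (le_max_left _ _))
  set C : Set ℝ := {c | ∃ hc : 0 ≤ c, gen F (h.ball x c hc) = ⊤} with hCdef
  have hC0 : C.Nonempty := ⟨c₁, hc₁, hgen₁⟩
  have hCb : BddBelow C := ⟨0, fun c hc => hc.1⟩
  have hCup : ∀ c ∈ C, ∀ c', c ≤ c' → c' ∈ C := by
    rintro c ⟨hc, hc2⟩ c' hcc
    refine ⟨hc.trans hcc, top_le_iff.1 ?_⟩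
    rw [← hc2]
    exact gen_mono (SN.ball_mono hcc)
  set c₀ := sInf C with hc₀def
  have hc₀ : 0 ≤ c₀ := le_csInf hC0 fun c hc => hc.1
  have hgt : ∀ c, c₀ < c → c ∈ C := fun c hc => by
    obtain ⟨c', hc', h1⟩ := exists_lt_of_csInf_lt hC0 hc
    exact hCup c' hc' c h1.le
  rcases hc₀.eq_or_lt with h0 | h0
  · -- `c₀ = 0`: all the operators vanish
    have key : ∀ (m : ℕ) (c : ℝ), 0 < c → ∀ w : Λ,
        ∃ b, N (p ^ m * x) b ≤ c ∧ ∃ w', w = b + F^[m] w' := by
      intro m
      induction m with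
      | zero =>
        intro c hc w
        exact ⟨0, by rw [h.zero]; exact hc.le, w, by rw [zero_add]; rfl⟩
      | succ m ih =>
        intro c hc w
        obtain ⟨hc', h1⟩ := hgt c (by rw [← h0]; exact hc)
        have hw : w ∈ gen F (h.ball x c hc') := h1 ▸ Submodule.mem_top
        obtain ⟨x', hx', y, -, rfl⟩ := exists_of_mem_gen hw
        obtain ⟨b, hb, w', rfl⟩ := ih (c / p) (by positivity) y
        refine ⟨x' + F b, ?_, w', ?_⟩
        · refine (h.add _ _ _).trans (max_le ((h.anti _ _ x' ?_).trans hx') ?_)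
          · exact Nat.le_mul_of_pos_left x (pow_pos hp.out.pos _)
          · rw [h.frob, pow_succ', mul_assoc, cx_mul hp.out.pos]
            calc (p : ℝ) * N (p ^ m * x) b ≤ p * (c / p) := mul_le_mul_of_nonneg_left hb hp0.le
              _ = c := by field_simp
        · rw [map_add, Function.iterate_succ_apply']
          abel
    have hzero : ∀ δ ∈ D, ∀ w, δ w = 0 := by
      intro δ hδ w
      apply h.pos (p ^ e * x + x₀ + A)
      refine le_antisymm (le_of_forall_pos_le_add fun c hc => ?_) (h.nonneg _ _)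
      obtain ⟨b, hb, w', rfl⟩ := key e c hc w
      rw [map_add, he δ hδ, add_zero, zero_add]
      refine (hD δ hδ _ (by omega) b).trans ((h.anti _ _ b ?_).trans hb)
      omega
    refine ⟨⊥, htop, fun w hw => ?_, fun a w hw => ?_, fun δ hδ w => ?_, fun ⟨w, hw⟩ => ⟨w,
      fun s hs w' => ?_⟩⟩
    · rw [Submodule.mem_bot] at hw ⊢
      rw [hw, map_zero]
    · rw [Submodule.mem_bot] at hw ⊢
      apply h.pos (cx p x)
      have h1 := h.of_sub x a w
      rw [hw, h.zero] at h1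
      have h2 := h.nonneg (cx p x) w
      nlinarith
    · rw [hzero δ hδ w]
      exact zero_mem _
    · rw [Submodule.mem_bot] at hs
      rw [hs, zero_add]
      exact hw w'
  · -- `c₀ > 0`
    set xa : ℕ → ℕ := fun a => cx p (x + A) + a * A with hxa
    have hxa1 : ∀ a, xa (a + 1) = xa a + A := fun a => by
      simp only [hxa]
      ring
    set SIG : ℕ → Submodule k Λ := fun a => gen F (h.obal (xa a) c₀ h0) with hSIG
    have hob : ∀ y y' : ℕ, y ≤ y' → h.obal y c₀ h0 ≤ h.obal y' c₀ h0 := fun y y' hyy w hw =>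
      lt_of_le_of_lt (h.anti _ _ w hyy) hw
    have hSm : ∀ a, SIG a ≤ SIG (a + 1) := fun a => gen_mono (hob _ _ (by
      rw [hxa1]
      omega))
    have hSne : ∀ y ≤ x, gen F (h.obal y c₀ h0) ≠ ⊤ := by
      intro y hyx htp
      have htp' : gen F (h.obal x c₀ h0) = ⊤ :=
        top_le_iff.1 (htp ▸ gen_mono (hob _ _ hyx))
      have h1 : ∀ w ∈ gen F (h.obal x c₀ h0),
          ∃ c, ∃ hc : 0 ≤ c, c < c₀ ∧ w ∈ gen F (h.ball x c hc) := by
        let S : Submodule k Λ :=
          { carrier := {w | ∃ c, ∃ hc : 0 ≤ c, c < c₀ ∧ w ∈ gen F (h.ball x c hc)}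
            add_mem' := by
              rintro a b ⟨c, hc, h1, h2⟩ ⟨c', hc', h1', h2'⟩
              refine ⟨max c c', hc.trans (le_max_left _ _), max_lt h1 h1', add_mem ?_ ?_⟩
              · exact gen_mono (SN.ball_mono (le_max_left _ _)) h2
              · exact gen_mono (SN.ball_mono (le_max_right _ _)) h2'
            zero_mem' := ⟨0, le_rfl, h0, zero_mem _⟩
            smul_mem' := by
              rintro a b ⟨c, hc, h1, h2⟩
              exact ⟨c, hc, h1, Submodule.smul_mem _ a h2⟩ }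
        have h2 : gen F (h.obal x c₀ h0) ≤ S := by
          refine gen_le (fun w hw => ?_) ?_
          · exact ⟨N x w, h.nonneg x w, hw, le_gen _ (show N x w ≤ N x w from le_rfl)⟩
          · rintro w ⟨c, hc, h3, h4⟩
            exact ⟨c, hc, h3, gen_stable h4⟩
        exact h2
      have h2 : ∀ g ∈ G, ∃ c, ∃ hc : 0 ≤ c, c < c₀ ∧ g ∈ gen F (h.ball x c hc) := fun g _ =>
        h1 g (htp' ▸ Submodule.mem_top)
      have h3 : ∃ c, ∃ hc : 0 ≤ c, c < c₀ ∧ ∀ g ∈ G, g ∈ gen F (h.ball x c hc) := by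
        clear hG hnil
        induction G, hGf using Set.Finite.induction_on with
        | empty => exact ⟨0, le_rfl, h0, fun g hg => absurd hg (Set.notMem_empty g)⟩
        | @insert a s ha hs ih =>
          obtain ⟨c, hc, h4, h5⟩ := ih fun g hg => h2 g (Set.mem_insert_of_mem _ hg)
          obtain ⟨c', hc', h4', h5'⟩ := h2 a (Set.mem_insert _ _)
          refine ⟨max c c', hc.trans (le_max_left _ _), max_lt h4 h4', ?_⟩
          rintro g (rfl | hg)
          · exact gen_mono (SN.ball_mono (le_max_right _ _)) h5'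
          · exact gen_mono (SN.ball_mono (le_max_left _ _)) (h5 g hg)
      obtain ⟨c, hc, h4, h5⟩ := h3
      have h6 : c ∈ C := ⟨hc, hG _ (fun w hw => gen_stable hw) h5⟩
      exact absurd (csInf_le hCb h6) (not_le.2 h4)
    -- pigeonhole
    obtain ⟨a, ha, hZa⟩ := exists_eq_of_mono (T := T) (Z := fun a => SIG a ⊔ T)
      (fun a => le_sup_right) fun a => sup_le_sup (hSm a) le_rfl
    have hax : xa a ≤ x := by
      have h1 : a * A ≤ (b + 1) * A := Nat.mul_le_mul_right _ (by omega)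
      simp only [hxa]
      omega
    have hax0 : x₀ ≤ xa a := by
      simp only [hxa]
      omega
    have haxc : cx p (x + A) ≤ xa a := by
      simp only [hxa]
      omega
    set Y := h.obal (xa a) c₀ h0 with hYdef
    obtain ⟨c, hc1, hc2⟩ : ∃ c, c₀ < c ∧ c < p * c₀ := by
      refine exists_between ?_
      nlinarith
    obtain ⟨hcn, hgen⟩ := hgt c hc1
    set X := h.ball x c hcn with hXdef
    have hYX : Y ≤ X := fun w hw => ((h.anti _ _ w hax).trans (le_of_lt hw)).trans hc1.le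
    -- `e` in `X`, `e = F w + s`
    have hX2 : ∀ e ∈ X, ∀ w s, s ∈ SIG a → e = F w + s → e ∈ SIG a := by
      intro e he' w s hs hxe
      obtain ⟨s₀, hs₀, t, ht, rfl⟩ := exists_of_mem_gen hs
      have h1 : N (xa a) (w + t) < c₀ := by
        have h2 : N x (F (w + t)) ≤ c := by
          have e1 : F (w + t) = e + -s₀ := by
            rw [map_add, hxe]
            abel
          rw [e1]
          refine (h.add _ _ _).trans (max_le he' ?_)
          rw [h.neg]
          exact hYX hs₀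
        rw [h.frob] at h2
        have h3 := h.anti _ _ (w + t) (hx3.trans haxc)
        nlinarith
      have h2 : w ∈ SIG a := by
        have h3 := sub_mem (le_gen Y (show w + t ∈ Y from h1)) ht
        rwa [add_sub_cancel_right] at h3
      rw [hxe]
      exact add_mem (gen_stable h2) hs
    set Z : Submodule k Λ := SIG a ⊔ T with hZdef
    have hSD : ∀ δ ∈ D, ∀ w ∈ SIG a, δ w ∈ SIG (a + 1) := by
      have key : ∀ m (w : Λ), w ∈ Gm F Y m → ∀ δ ∈ D,
          δ w ∈ Gm F (h.obal (xa (a + 1)) c₀ h0) m := by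
        have h1 : ∀ δ ∈ D, ∀ w ∈ Y, δ w ∈ h.obal (xa (a + 1)) c₀ h0 := by
          intro δ hδ w hw
          show N (xa (a + 1)) (δ w) < c₀
          rw [hxa1]
          exact lt_of_le_of_lt (hD δ hδ _ hax0 w) hw
        intro m
        induction m with
        | zero => exact fun w hw δ hδ => h1 δ hδ w hw
        | succ m ih =>
          intro w hw δ hδ
          obtain ⟨x, hx, y, hy, rfl⟩ := Submodule.mem_sup.1 hw
          obtain ⟨z, hz, rfl⟩ := Submodule.mem_map.1 hy
          obtain ⟨δ', hδ', h2⟩ := hV δ hδ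
          rw [map_add, h2]
          exact add_mem (Submodule.mem_sup_left (h1 δ hδ x hx))
            (Submodule.mem_sup_right (Submodule.mem_map_of_mem (ih z hz δ' hδ')))
      rintro δ hδ w ⟨m, hm⟩
      exact ⟨m, key m w hm δ hδ⟩
    have hZD : ∀ δ ∈ D, ∀ w ∈ Z, δ w ∈ Z := by
      intro δ hδ w hw
      obtain ⟨x, hx, y, hy, rfl⟩ := Submodule.mem_sup.1 hw
      obtain ⟨z, -, rfl⟩ := Submodule.mem_map.1 hy
      obtain ⟨δ', -, h1⟩ := hV δ hδ
      rw [map_add, h1]
      refine add_mem ?_ (Submodule.mem_sup_right (Submodule.mem_map_of_mem Submodule.mem_top))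
      have h2 : δ x ∈ SIG (a + 1) ⊔ T := Submodule.mem_sup_left (hSD δ hδ x hx)
      have h3 : SIG a ⊔ T = SIG (a + 1) ⊔ T := hZa
      rw [hZdef, h3]
      exact h2
    have hZne : Z ≠ ⊤ := by
      intro htp
      refine hSne _ hax (top_le_iff.1 ?_)
      rw [← hgen]
      refine gen_le (fun x hx => ?_) fun w hw => gen_stable hw
      have h1 : x ∈ Z := htp ▸ Submodule.mem_top
      obtain ⟨s, hs, y, hy, h2⟩ := Submodule.mem_sup.1 h1
      obtain ⟨z, -, rfl⟩ := Submodule.mem_map.1 hy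
      exact hX2 x hx z s hs (by rw [← h2]; abel)
    have hZD' : Z ⊔ DS D ⊤ ≠ ⊤ := fun htp => hZne (eq_top_of_nil hnil hZD htp)
    set X₁ : Submodule k Λ := X ⊓ (Z ⊔ DS D ⊤) with hX₁
    have hYX₁ : Y ≤ X₁ := fun y hy =>
      ⟨hYX hy, Submodule.mem_sup_left (Submodule.mem_sup_left (le_gen _ hy))⟩
    have hFt : ∀ y, F y ∈ Z ⊔ DS D ⊤ := fun y => Submodule.mem_sup_left (Submodule.mem_sup_right
      (Submodule.mem_map_of_mem Submodule.mem_top))
    -- `δ x` for `x` in `X`
    have hDX : ∀ δ ∈ D, ∀ x ∈ X, δ x ∈ gen F X₁ := by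
      intro δ hδ x' hx'
      have hu : N (x + A) (δ x') ≤ c := (hD δ hδ x (by
        have := cx_le hp2 (x + A)
        omega) x').trans hx'
      have hw : δ x' ∈ gen F X := hgen ▸ Submodule.mem_top
      obtain ⟨e', he', y, -, h1⟩ := exists_of_mem_gen hw
      have h2 : N (x + A) (F y) ≤ c := by
        have e1 : F y = δ x' + -e' := by
          rw [h1]
          abel
        rw [e1]
        refine (h.add _ _ _).trans (max_le hu ?_)
        rw [h.neg]
        exact (h.anti _ _ e' (by omega)).trans he'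
      rw [h.frob] at h2
      have hyY : y ∈ Y := by
        show N (xa a) y < c₀
        have h3 := h.anti _ _ y haxc
        nlinarith
      have he1 : e' ∈ X₁ := by
        refine ⟨he', ?_⟩
        have e1 : e' = δ x' - F y := by
          rw [h1]
          abel
        rw [e1]
        exact sub_mem (Submodule.mem_sup_right (mem_DS hδ Submodule.mem_top)) (hFt y)
      rw [h1]
      exact add_mem (le_gen _ he1) (gen_stable (le_gen _ (hYX₁ hyY)))
    have hVi : ∀ m (w : Λ), w ∈ Gm F X m → ∀ δ ∈ D, δ w ∈ gen F X₁ := by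
      intro m
      induction m with
      | zero => exact fun w hw δ hδ => hDX δ hδ w hw
      | succ m ih =>
        intro w hw δ hδ
        obtain ⟨x, hx, y, hy, rfl⟩ := Submodule.mem_sup.1 hw
        obtain ⟨z, hz, rfl⟩ := Submodule.mem_map.1 hy
        obtain ⟨δ', hδ', h1⟩ := hV δ hδ
        rw [map_add, h1]
        exact add_mem (hDX δ hδ x hx) (gen_stable (ih z hz δ' hδ'))
    refine ⟨gen F X₁, fun htp => ?_, fun w hw => gen_stable hw, fun a' w hw => ?_,
      fun δ hδ w => ?_, fun _ => ?_⟩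
    · -- proper
      refine hZD' (top_le_iff.1 ?_)
      have h1 : X ≤ Z ⊔ DS D ⊤ := by
        intro x hx
        have h2 : x ∈ gen F X₁ := htp ▸ Submodule.mem_top
        obtain ⟨x₀, hx₀, y, -, rfl⟩ := exists_of_mem_gen h2
        exact add_mem hx₀.2 (hFt y)
      intro w _
      have hw : w ∈ gen F X := hgen ▸ Submodule.mem_top
      obtain ⟨x, hx, y, -, rfl⟩ := exists_of_mem_gen hw
      exact add_mem (h1 hx) (hFt y)
    · -- saturated
      refine sat_gen a' (fun w hw => ?_) hw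
      have h1 : p * N (cx p x) w ≤ c := (h.of_sub x a' w).trans hw.1
      have h2 := h.anti _ _ w (hx3.trans haxc)
      exact le_gen _ (hYX₁ (show N (xa a) w < c₀ by nlinarith))
    · -- operators
      have hw : w ∈ gen F X := hgen ▸ Submodule.mem_top
      obtain ⟨m, hm⟩ := hw
      exact hVi m w hm δ hδ
    · -- not everything modulo `F Λ`
      obtain ⟨w, hw⟩ : ∃ w, w ∉ Z ⊔ DS D ⊤ := by
        by_contra hcon
        push Not at hcon
        exact hZD' (top_le_iff.1 fun w _ => hcon w)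
      refine ⟨w, fun s hs w' h1 => hw ?_⟩
      obtain ⟨x₀, hx₀, y, -, rfl⟩ := exists_of_mem_gen hs
      rw [h1, add_assoc, ← map_add]
      exact add_mem hx₀.2 (hFt _)

end Pool.Agent.TXN
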