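import Mathlib

/-!
# Norms and ties: the abstract lemma

`F` a Frobenius linear operator of a `k`-space, `N` a norm with `N (F w) = p * N w`, `D` a family of
linear operators which do not increase `N`, nilpotent, with `δ F = F δ'`.  Then the images of the
operators of `D` are in a proper saturated subspace stable under `F`.
-/

set_option autoImplicit false

open Submodule

namespace Pool.Agent.TXN

universe u v

section

variable {k : Type u} {Λ : Type v} [Field k] {p : ℕ} [hp : Fact p.Prime] [CharP k p]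
  [AddCommGroup Λ] [Module k Λ]

/-- A norm for which `F` is expanding by the factor `p`. -/
structure FN (p : ℕ) [Fact p.Prime] [CharP k p] (F : Λ →ₛₗ[frobenius k p] Λ) (N : Λ → ℝ) :
    Prop where
  nonneg : ∀ w, 0 ≤ N w
  add : ∀ w w', N (w + w') ≤ max (N w) (N w')
  smul : ∀ (c : k) w, N (c • w) ≤ N w
  frob : ∀ w, N (F w) = p * N w
  pos : ∀ w, N w = 0 → w = 0

/-- `X + F X + .. + F ^ m X`. -/
def Gm [RingHomSurjective (frobenius k p)] (F : Λ →ₛₗ[frobenius k p] Λ) (X : Submodule k Λ) :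
    ℕ → Submodule k Λ
  | 0 => X
  | m + 1 => X ⊔ (Gm F X m).map F

variable {F : Λ →ₛₗ[frobenius k p] Λ}

section Gm

variable [RingHomSurjective (frobenius k p)]

theorem le_Gm (X : Submodule k Λ) (m : ℕ) : X ≤ Gm F X m := by
  cases m with
  | zero => exact le_rfl
  | succ m => exact le_sup_left

theorem Gm_succ (X : Submodule k Λ) (m : ℕ) : Gm F X m ≤ Gm F X (m + 1) := by
  induction m with
  | zero => exact le_Gm X 1
  | succ m ih => exact sup_le_sup le_rfl (Submodule.map_mono ih)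

theorem Gm_mono {X : Submodule k Λ} {m n : ℕ} (h : m ≤ n) : Gm F X m ≤ Gm F X n :=
  monotone_nat_of_le_succ (Gm_succ X) h

theorem Gm_le {X Y : Submodule k Λ} (h : X ≤ Y) (m : ℕ) : Gm F X m ≤ Gm F Y m := by
  induction m with
  | zero => exact h
  | succ m ih => exact sup_le_sup h (Submodule.map_mono ih)

/-- The smallest subspace stable under `F` which contains `X`. -/
def gen (F : Λ →ₛₗ[frobenius k p] Λ) (X : Submodule k Λ) : Submodule k Λ where
  carrier := {w | ∃ m, w ∈ Gm F X m}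
  add_mem' := by
    rintro a b ⟨m, ha⟩ ⟨n, hb⟩
    exact ⟨max m n, add_mem (Gm_mono (le_max_left m n) ha) (Gm_mono (le_max_right m n) hb)⟩
  zero_mem' := ⟨0, zero_mem _⟩
  smul_mem' := by
    rintro c a ⟨m, ha⟩
    exact ⟨m, Submodule.smul_mem _ c ha⟩

theorem mem_gen {X : Submodule k Λ} {w : Λ} : w ∈ gen F X ↔ ∃ m, w ∈ Gm F X m := Iff.rfl

theorem le_gen (X : Submodule k Λ) : X ≤ gen F X := fun _ hw => ⟨0, hw⟩

theorem gen_stable {X : Submodule k Λ} {w : Λ} (hw : w ∈ gen F X) : F w ∈ gen F X := by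
  obtain ⟨m, hm⟩ := hw
  exact ⟨m + 1, Submodule.mem_sup_right (Submodule.mem_map_of_mem hm)⟩

theorem gen_le {X S : Submodule k Λ} (hX : X ≤ S) (hS : ∀ w ∈ S, F w ∈ S) : gen F X ≤ S := by
  rintro w ⟨m, hm⟩
  induction m generalizing w with
  | zero => exact hX hm
  | succ m ih =>
    obtain ⟨x, hx, y, hy, rfl⟩ := Submodule.mem_sup.1 hm
    obtain ⟨z, hz, rfl⟩ := Submodule.mem_map.1 hy
    exact add_mem (hX hx) (hS z (ih hz))

theorem gen_mono {X Y : Submodule k Λ} (h : X ≤ Y) : gen F X ≤ gen F Y := fun _ ⟨m, hm⟩ =>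
  ⟨m, Gm_le h m hm⟩

/-- An element of `gen X` is `x + F y`. -/
theorem exists_of_mem_gen {X : Submodule k Λ} {w : Λ} (hw : w ∈ gen F X) :
    ∃ x ∈ X, ∃ y ∈ gen F X, w = x + F y := by
  obtain ⟨m, hm⟩ := hw
  cases m with
  | zero => exact ⟨w, hm, 0, zero_mem _, by rw [map_zero, add_zero]⟩
  | succ m =>
    obtain ⟨x, hx, y, hy, rfl⟩ := Submodule.mem_sup.1 hm
    obtain ⟨z, hz, rfl⟩ := Submodule.mem_map.1 hy
    exact ⟨x, hx, z, ⟨m, hz⟩, rfl⟩

/-- Saturation from the first step. -/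
theorem sat_gen {X : Submodule k Λ} (a : k) (h0 : ∀ w, F w - a • w ∈ X → w ∈ gen F X) {w : Λ}
    (hw : F w - a • w ∈ gen F X) : w ∈ gen F X := by
  obtain ⟨m, hm⟩ := hw
  induction m generalizing w with
  | zero => exact h0 w hm
  | succ m ih =>
    obtain ⟨x, hx, y, hy, h1⟩ := Submodule.mem_sup.1 hm
    obtain ⟨z, hz, rfl⟩ := Submodule.mem_map.1 hy
    have h2 : w - z ∈ gen F X := by
      apply ih
      have e : F (w - z) - a • (w - z) = x + a • z := by
        rw [map_sub, smul_sub, show F w - F z - (a • w - a • z) = (F w - a • w) - F z + a • z by abel,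
          ← h1]
        abel
      rw [e]
      exact add_mem (le_Gm X m hx) (Submodule.smul_mem _ a hz)
    have h3 := add_mem h2 (show z ∈ gen F X from ⟨m, hz⟩)
    rwa [sub_add_cancel] at h3

end Gm

variable {N : Λ → ℝ}

namespace FN

theorem zero (h : FN p F N) : N 0 = 0 := by
  have h1 := h.frob 0
  rw [map_zero] at h1
  have h2 : (1 : ℝ) < p := by exact_mod_cast hp.out.one_lt
  have h3 := h.nonneg 0
  nlinarith

theorem neg (h : FN p F N) (w : Λ) : N (-w) = N w := by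
  have h1 : ∀ w, N (-w) ≤ N w := fun w => by
    have h2 := h.smul (-1) w
    rwa [neg_smul, one_smul] at h2
  exact le_antisymm (h1 w) (by have h2 := h1 (-w); rwa [neg_neg] at h2)

/-- The ball of radius `c`. -/
def ball (h : FN p F N) (c : ℝ) (hc : 0 ≤ c) : Submodule k Λ where
  carrier := {w | N w ≤ c}
  add_mem' := fun {a b} ha hb => (h.add a b).trans (max_le ha hb)
  zero_mem' := by
    show N 0 ≤ c
    rw [h.zero]
    exact hc
  smul_mem' := fun a w hw => (h.smul a w).trans hw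

/-- The open ball of radius `c`. -/
def obal (h : FN p F N) (c : ℝ) (hc : 0 < c) : Submodule k Λ where
  carrier := {w | N w < c}
  add_mem' := fun {a b} ha hb => (h.add a b).trans_lt (max_lt ha hb)
  zero_mem' := by
    show N 0 < c
    rw [h.zero]
    exact hc
  smul_mem' := fun a w hw => (h.smul a w).trans_lt hw

theorem mem_ball {h : FN p F N} {c : ℝ} {hc : 0 ≤ c} {w : Λ} : w ∈ h.ball c hc ↔ N w ≤ c := Iff.rfl

theorem mem_obal {h : FN p F N} {c : ℝ} {hc : 0 < c} {w : Λ} : w ∈ h.obal c hc ↔ N w < c := Iff.rfl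

theorem ball_mono {h : FN p F N} {c c' : ℝ} {hc : 0 ≤ c} {hc' : 0 ≤ c'} (hcc : c ≤ c') :
    h.ball c hc ≤ h.ball c' hc' := fun _ hw => le_trans (mem_ball.1 hw) hcc

/-- `p N w ≤ c` if `N (F w - a w) ≤ c`. -/
theorem of_sub (h : FN p F N) (a : k) (w : Λ) : p * N w ≤ N (F w - a • w) := by
  have h2 : (1 : ℝ) < p := by exact_mod_cast hp.out.one_lt
  rcases (h.nonneg w).eq_or_lt with h0 | h0
  · rw [← h0, mul_zero]
    exact h.nonneg _
  · have e : F w = (F w - a • w) + a • w := by abel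
    have h3 : N (F w) ≤ max (N (F w - a • w)) (N (a • w)) := by
      conv_lhs => rw [e]
      exact h.add _ _
    rw [h.frob] at h3
    rcases le_max_iff.1 h3 with h4 | h4
    · exact h4
    · exfalso
      have h5 := h.smul a w
      nlinarith

end FN

/-- The sum of the images of `S` under the operators of `D`. -/
def DS (D : Set (Λ →ₗ[k] Λ)) (S : Submodule k Λ) : Submodule k Λ :=
  ⨆ δ ∈ D, S.map δ

theorem mem_DS {D : Set (Λ →ₗ[k] Λ)} {S : Submodule k Λ} {δ : Λ →ₗ[k] Λ} (hδ : δ ∈ D) {w : Λ}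
    (hw : w ∈ S) : δ w ∈ DS D S :=
  Submodule.mem_iSup_of_mem δ (Submodule.mem_iSup_of_mem hδ (Submodule.mem_map_of_mem hw))

theorem DS_le {D : Set (Λ →ₗ[k] Λ)} {S T : Submodule k Λ} (h : ∀ δ ∈ D, ∀ w ∈ S, δ w ∈ T) :
    DS D S ≤ T := by
  refine iSup_le fun δ => iSup_le fun hδ => ?_
  rintro _ ⟨w, hw, rfl⟩
  exact h δ hδ w hw

theorem DS_mono {D : Set (Λ →ₗ[k] Λ)} {S T : Submodule k Λ} (h : S ≤ T) : DS D S ≤ DS D T :=
  DS_le fun _ hδ _ hw => mem_DS hδ (h hw)

theorem DS_sup {D : Set (Λ →ₗ[k] Λ)} {S T : Submodule k Λ} : DS D (S ⊔ T) ≤ DS D S ⊔ DS D T := by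
  refine DS_le fun δ hδ w hw => ?_
  obtain ⟨x, hx, y, hy, rfl⟩ := Submodule.mem_sup.1 hw
  rw [map_add]
  exact add_mem (Submodule.mem_sup_left (mem_DS hδ hx)) (Submodule.mem_sup_right (mem_DS hδ hy))

/-- Nilpotence: a `D`-stable subspace `Z` with `Z + D Λ = Λ` is `Λ`. -/
theorem eq_top_of_nil {D : Set (Λ →ₗ[k] Λ)} {n : ℕ} (hnil : (DS D)^[n] ⊤ = ⊥)
    {Z : Submodule k Λ} (hZ : ∀ δ ∈ D, ∀ w ∈ Z, δ w ∈ Z) (h : Z ⊔ DS D ⊤ = ⊤) : Z = ⊤ := by
  have key : ∀ m : ℕ, Z ⊔ (DS D)^[m] ⊤ = ⊤ := by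
    intro m
    induction m with
    | zero => exact sup_top_eq Z
    | succ m ih =>
      rw [Function.iterate_succ_apply']
      refine top_le_iff.1 ?_
      calc (⊤ : Submodule k Λ) = Z ⊔ DS D ⊤ := h.symm
        _ = Z ⊔ DS D (Z ⊔ (DS D)^[m] ⊤) := by rw [ih]
        _ ≤ Z ⊔ (DS D Z ⊔ DS D ((DS D)^[m] ⊤)) := sup_le_sup le_rfl DS_sup
        _ ≤ Z ⊔ DS D ((DS D)^[m] ⊤) :=
          sup_le le_sup_left (sup_le (le_sup_of_le_left (DS_le hZ)) le_sup_right)
  have := key n
  rwa [hnil, sup_bot_eq] at this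

/-- **Lemma N'.** -/
theorem exists_sat [IsAlgClosed k] (h : FN p F N) {G : Set Λ} (hGf : G.Finite)
    (hG : ∀ S : Submodule k Λ, (∀ w ∈ S, F w ∈ S) → G ⊆ S → S = ⊤) (hΛ : ∃ w : Λ, w ≠ 0)
    {D : Set (Λ →ₗ[k] Λ)} (hD : ∀ δ ∈ D, ∀ w, N (δ w) ≤ N w)
    (hV : ∀ δ ∈ D, ∃ δ' ∈ D, ∀ w, δ (F w) = F (δ' w)) {e : ℕ}
    (he : ∀ δ ∈ D, ∀ w, δ (F^[e] w) = 0) {n : ℕ} (hnil : (DS D)^[n] ⊤ = ⊥) :
    ∃ S : Submodule k Λ, S ≠ ⊤ ∧ (∀ w ∈ S, F w ∈ S) ∧
      (∀ (a : k) (w : Λ), F w - a • w ∈ S → w ∈ S) ∧ (∀ δ ∈ D, ∀ w, δ w ∈ S) ∧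
      ((∃ w : Λ, ∀ w', w ≠ F w') → ∃ w : Λ, ∀ s ∈ S, ∀ w', w ≠ s + F w') := by
  have hsurj : RingHomSurjective (frobenius k p) :=
    ⟨fun c => by
      obtain ⟨d, hd⟩ := IsAlgClosed.exists_pow_nat_eq c hp.out.pos
      exact ⟨d, hd⟩⟩
  have hp1 : (1 : ℝ) < p := by exact_mod_cast hp.out.one_lt
  have hp0 : (0 : ℝ) < p := by linarith
  obtain ⟨w₀, hw₀⟩ := hΛ
  have htop : (⊥ : Submodule k Λ) ≠ ⊤ := fun h0 => hw₀ (by
    have h1 : w₀ ∈ (⊥ : Submodule k Λ) := h0 ▸ Submodule.mem_top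
    simpa using h1)
  -- some ball generates
  obtain ⟨c₁, hc₁, hgen₁⟩ : ∃ (c : ℝ) (hc : 0 ≤ c), gen F (h.ball c hc) = ⊤ := by
    obtain ⟨b, hb⟩ := (hGf.image N).bddAbove
    refine ⟨max b 0, le_max_right _ _, hG _ (fun w hw => gen_stable hw) fun g hg => ?_⟩
    exact le_gen _ ((hb ⟨g, hg, rfl⟩).trans (le_max_left _ _))
  set C : Set ℝ := {c | ∃ hc : 0 ≤ c, gen F (h.ball c hc) = ⊤} with hCdef
  have hC0 : C.Nonempty := ⟨c₁, hc₁, hgen₁⟩
  have hCb : BddBelow C := ⟨0, fun c hc => hc.1⟩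
  have hCup : ∀ c ∈ C, ∀ c', c ≤ c' → c' ∈ C := by
    rintro c ⟨hc, hc2⟩ c' hcc
    refine ⟨hc.trans hcc, top_le_iff.1 ?_⟩
    rw [← hc2]
    exact gen_mono (FN.ball_mono hcc)
  set c₀ := sInf C with hc₀def
  have hc₀ : 0 ≤ c₀ := le_csInf hC0 fun c hc => hc.1
  have hgt : ∀ c, c₀ < c → c ∈ C := fun c hc => by
    obtain ⟨c', hc', h1⟩ := exists_lt_of_csInf_lt hC0 hc
    exact hCup c' hc' c h1.le
  rcases hc₀.eq_or_lt with h0 | h0
  · -- `c₀ = 0`: all the operators vanish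
    have key : ∀ (m : ℕ) (c : ℝ), 0 < c → ∀ w : Λ, ∃ b, N b ≤ c ∧ ∃ w', w = b + F^[m] w' := by
      intro m
      induction m with
      | zero =>
        intro c hc w
        exact ⟨0, by rw [h.zero]; exact hc.le, w, by rw [zero_add]; rfl⟩
      | succ m ih =>
        intro c hc w
        obtain ⟨hc', h1⟩ := hgt c (by rw [← h0]; exact hc)
        have hw : w ∈ gen F (h.ball c hc') := h1 ▸ Submodule.mem_top
        obtain ⟨x, hx, y, -, rfl⟩ := exists_of_mem_gen hw
        obtain ⟨b, hb, w', rfl⟩ := ih (c / p) (by positivity) y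
        refine ⟨x + F b, ?_, w', ?_⟩
        · refine (h.add _ _).trans (max_le hx ?_)
          rw [h.frob]
          calc (p : ℝ) * N b ≤ p * (c / p) := mul_le_mul_of_nonneg_left hb hp0.le
            _ = c := by field_simp
        · rw [map_add, Function.iterate_succ_apply']
          abel
    have hzero : ∀ δ ∈ D, ∀ w, δ w = 0 := by
      intro δ hδ w
      apply h.pos
      refine le_antisymm (le_of_forall_pos_le_add fun c hc => ?_) (h.nonneg _)
      obtain ⟨b, hb, w', rfl⟩ := key e c hc w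
      rw [map_add, he δ hδ, add_zero, zero_add]
      exact (hD δ hδ b).trans hb
    refine ⟨⊥, htop, fun w hw => ?_, fun a w hw => ?_, fun δ hδ w => ?_, fun ⟨w, hw⟩ => ⟨w,
      fun s hs w' => ?_⟩⟩
    · rw [Submodule.mem_bot] at hw ⊢
      rw [hw, map_zero]
    · rw [Submodule.mem_bot] at hw ⊢
      apply h.pos
      have h1 := h.of_sub a w
      rw [hw, h.zero] at h1
      have h2 := h.nonneg w
      nlinarith
    · rw [hzero δ hδ w]
      exact zero_mem _
    · rw [Submodule.mem_bot] at hs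
      rw [hs, zero_add]
      exact hw w'
  · -- `c₀ > 0`
    set Y := h.obal c₀ h0 with hYdef
    set SIG := gen F Y with hSIG
    have hSne : SIG ≠ ⊤ := by
      intro htp
      -- the generators are in `gen (ball c)` for some `c < c₀`
      have h1 : ∀ w ∈ SIG, ∃ c, ∃ hc : 0 ≤ c, c < c₀ ∧ w ∈ gen F (h.ball c hc) := by
        let S : Submodule k Λ :=
          { carrier := {w | ∃ c, ∃ hc : 0 ≤ c, c < c₀ ∧ w ∈ gen F (h.ball c hc)}
            add_mem' := by
              rintro a b ⟨c, hc, h1, h2⟩ ⟨c', hc', h1', h2'⟩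
              refine ⟨max c c', hc.trans (le_max_left _ _), max_lt h1 h1', add_mem ?_ ?_⟩
              · exact gen_mono (FN.ball_mono (le_max_left _ _)) h2
              · exact gen_mono (FN.ball_mono (le_max_right _ _)) h2'
            zero_mem' := ⟨0, le_rfl, h0, zero_mem _⟩
            smul_mem' := by
              rintro a b ⟨c, hc, h1, h2⟩
              exact ⟨c, hc, h1, Submodule.smul_mem _ a h2⟩ }
        have h2 : SIG ≤ S := by
          refine gen_le (fun w hw => ?_) ?_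
          · exact ⟨N w, h.nonneg w, hw, le_gen _ (show N w ≤ N w from le_rfl)⟩
          · rintro w ⟨c, hc, h3, h4⟩
            exact ⟨c, hc, h3, gen_stable h4⟩
        exact h2
      have h2 : ∀ g ∈ G, ∃ c, ∃ hc : 0 ≤ c, c < c₀ ∧ g ∈ gen F (h.ball c hc) := fun g _ =>
        h1 g (htp ▸ Submodule.mem_top)
      have h3 : ∃ c, ∃ hc : 0 ≤ c, c < c₀ ∧ ∀ g ∈ G, g ∈ gen F (h.ball c hc) := by
        clear hG hnil
        induction G, hGf using Set.Finite.induction_on with
        | empty => exact ⟨0, le_rfl, h0, fun g hg => absurd hg (Set.notMem_empty g)⟩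
        | @insert a s ha hs ih =>
          obtain ⟨c, hc, h4, h5⟩ := ih fun g hg => h2 g (Set.mem_insert_of_mem _ hg)
          obtain ⟨c', hc', h4', h5'⟩ := h2 a (Set.mem_insert _ _)
          refine ⟨max c c', hc.trans (le_max_left _ _), max_lt h4 h4', ?_⟩
          rintro g (rfl | hg)
          · exact gen_mono (FN.ball_mono (le_max_right _ _)) h5'
          · exact gen_mono (FN.ball_mono (le_max_left _ _)) (h5 g hg)
      obtain ⟨c, hc, h4, h5⟩ := h3
      have h6 : c ∈ C := ⟨hc, hG _ (fun w hw => gen_stable hw) h5⟩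
      exact absurd (csInf_le hCb h6) (not_le.2 h4)
    obtain ⟨c, hc1, hc2⟩ : ∃ c, c₀ < c ∧ c < p * c₀ := by
      refine exists_between ?_
      nlinarith
    obtain ⟨hcn, hgen⟩ := hgt c hc1
    set X := h.ball c hcn with hXdef
    have hYX : Y ≤ X := fun w hw => (le_of_lt hw).trans hc1.le
    -- `e` in `X`, `e = F w + s`
    have hX2 : ∀ x ∈ X, ∀ w s, s ∈ SIG → x = F w + s → x ∈ SIG := by
      intro x hx w s hs hxe
      obtain ⟨s₀, hs₀, t, ht, rfl⟩ := exists_of_mem_gen hs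
      have h1 : N (w + t) < c₀ := by
        have h2 : N (F (w + t)) ≤ c := by
          have e1 : F (w + t) = x + -s₀ := by
            rw [map_add, hxe]
            abel
          rw [e1]
          refine (h.add _ _).trans (max_le hx ?_)
          rw [h.neg]
          exact hYX hs₀
        rw [h.frob] at h2
        nlinarith
      have h2 : w ∈ SIG := by
        have h3 := sub_mem (le_gen Y (show w + t ∈ Y from h1)) ht
        rwa [add_sub_cancel_right] at h3
      rw [hxe]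
      exact add_mem (gen_stable h2) hs
    -- operators
    have hVi : ∀ m (w : Λ), w ∈ Gm F X m → ∀ δ ∈ D, δ w ∈ Gm F (X ⊓ DS D ⊤) m := by
      intro m
      induction m with
      | zero => exact fun w hw δ hδ => ⟨(hD δ hδ w).trans hw, mem_DS hδ Submodule.mem_top⟩
      | succ m ih =>
        intro w hw δ hδ
        obtain ⟨x, hx, y, hy, rfl⟩ := Submodule.mem_sup.1 hw
        obtain ⟨z, hz, rfl⟩ := Submodule.mem_map.1 hy
        obtain ⟨δ', hδ', h1⟩ := hV δ hδ
        rw [map_add, h1]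
        exact add_mem (Submodule.mem_sup_left ⟨(hD δ hδ x).trans hx, mem_DS hδ Submodule.mem_top⟩)
          (Submodule.mem_sup_right (Submodule.mem_map_of_mem (ih z hz δ' hδ')))
    have hSD : ∀ δ ∈ D, ∀ w ∈ SIG, δ w ∈ SIG := by
      have key : ∀ m (w : Λ), w ∈ Gm F Y m → ∀ δ ∈ D, δ w ∈ Gm F Y m := by
        intro m
        induction m with
        | zero => exact fun w hw δ hδ => lt_of_le_of_lt (hD δ hδ w) hw
        | succ m ih =>
          intro w hw δ hδ
          obtain ⟨x, hx, y, hy, rfl⟩ := Submodule.mem_sup.1 hw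
          obtain ⟨z, hz, rfl⟩ := Submodule.mem_map.1 hy
          obtain ⟨δ', hδ', h1⟩ := hV δ hδ
          rw [map_add, h1]
          exact add_mem (Submodule.mem_sup_left (lt_of_le_of_lt (hD δ hδ x) hx))
            (Submodule.mem_sup_right (Submodule.mem_map_of_mem (ih z hz δ' hδ')))
      rintro δ hδ w ⟨m, hm⟩
      exact ⟨m, key m w hm δ hδ⟩
    set Z : Submodule k Λ := SIG ⊔ (⊤ : Submodule k Λ).map F with hZdef
    have hZD : ∀ δ ∈ D, ∀ w ∈ Z, δ w ∈ Z := by
      intro δ hδ w hw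
      obtain ⟨x, hx, y, hy, rfl⟩ := Submodule.mem_sup.1 hw
      obtain ⟨z, -, rfl⟩ := Submodule.mem_map.1 hy
      obtain ⟨δ', -, h1⟩ := hV δ hδ
      rw [map_add, h1]
      exact add_mem (Submodule.mem_sup_left (hSD δ hδ x hx))
        (Submodule.mem_sup_right (Submodule.mem_map_of_mem Submodule.mem_top))
    have hZne : Z ≠ ⊤ := by
      intro htp
      refine hSne (top_le_iff.1 ?_)
      rw [← hgen]
      refine gen_le (fun x hx => ?_) fun w hw => gen_stable hw
      have h1 : x ∈ Z := htp ▸ Submodule.mem_top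
      obtain ⟨s, hs, y, hy, h2⟩ := Submodule.mem_sup.1 h1
      obtain ⟨z, -, rfl⟩ := Submodule.mem_map.1 hy
      exact hX2 x hx z s hs (by rw [← h2]; abel)
    have hZD' : Z ⊔ DS D ⊤ ≠ ⊤ := fun htp => hZne (eq_top_of_nil hnil hZD htp)
    set X₁ : Submodule k Λ := X ⊓ (Z ⊔ DS D ⊤) with hX₁
    have hYX₁ : Y ≤ X₁ := fun y hy =>
      ⟨hYX hy, Submodule.mem_sup_left (Submodule.mem_sup_left (le_gen _ hy))⟩
    refine ⟨gen F X₁, fun htp => ?_, fun w hw => gen_stable hw, fun a w hw => ?_,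
      fun δ hδ w => ?_, fun _ => ?_⟩
    · -- proper
      refine hZD' (top_le_iff.1 ?_)
      have h1 : X ≤ Z ⊔ DS D ⊤ := by
        intro x hx
        have h2 : x ∈ gen F X₁ := htp ▸ Submodule.mem_top
        obtain ⟨x₀, hx₀, y, -, rfl⟩ := exists_of_mem_gen h2
        exact add_mem hx₀.2 (Submodule.mem_sup_left (Submodule.mem_sup_right
          (Submodule.mem_map_of_mem Submodule.mem_top)))
      intro w _
      have hw : w ∈ gen F X := hgen ▸ Submodule.mem_top
      obtain ⟨x, hx, y, -, rfl⟩ := exists_of_mem_gen hw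
      exact add_mem (h1 hx) (Submodule.mem_sup_left (Submodule.mem_sup_right
          (Submodule.mem_map_of_mem Submodule.mem_top)))
    · -- saturated
      refine sat_gen a (fun w hw => ?_) hw
      have h1 : p * N w ≤ c := (h.of_sub a w).trans hw.1
      exact le_gen _ (hYX₁ (show N w < c₀ by nlinarith))
    · -- operators
      have hw : w ∈ gen F X := hgen ▸ Submodule.mem_top
      obtain ⟨m, hm⟩ := hw
      exact ⟨m, Gm_le (inf_le_inf le_rfl le_sup_right) m (hVi m w hm δ hδ)⟩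
    · -- not everything modulo `F Λ`
      obtain ⟨w, hw⟩ : ∃ w, w ∉ Z ⊔ DS D ⊤ := by
        by_contra hcon
        push Not at hcon
        exact hZD' (top_le_iff.1 fun w _ => hcon w)
      refine ⟨w, fun s hs w' h1 => hw ?_⟩
      obtain ⟨x₀, hx₀, y, -, rfl⟩ := exists_of_mem_gen hs
      rw [h1, add_assoc, ← map_add]
      exact add_mem hx₀.2 (Submodule.mem_sup_left (Submodule.mem_sup_right
          (Submodule.mem_map_of_mem Submodule.mem_top)))

end

end Pool.Agent.TXN
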