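import Pool.Agent.Lib.TXN.Noe

/-!
# Norms and ties: the chain of saturated subspaces

`Ch F D i`: the canonical chain `⊤ = Ch 0 ≥ Ch 1 ≥ ..`, `Ch (i + 1)` the smallest saturated subspace
which contains `D (Ch i)`.  `Ch F D b = ⊥` for `b = dim Λ / F Λ`.
-/

set_option autoImplicit false

open Submodule

namespace Pool.Agent.TXN

universe u v

variable {k : Type u} {Λ : Type v} [Field k] {p : ℕ} [hp : Fact p.Prime] [CharP k p]
  [AddCommGroup Λ] [Module k Λ] {F : Λ →ₛₗ[frobenius k p] Λ}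

/-- Stable under `F` and saturated. -/
structure Sat (F : Λ →ₛₗ[frobenius k p] Λ) (S : Submodule k Λ) : Prop where
  stable : ∀ w ∈ S, F w ∈ S
  sat : ∀ (a : k) (w : Λ), F w - a • w ∈ S → w ∈ S

theorem Sat.of_F {S : Submodule k Λ} (h : Sat F S) {w : Λ} (hw : F w ∈ S) : w ∈ S :=
  h.sat 0 w (by rwa [zero_smul, sub_zero])

theorem sat_top : Sat F (⊤ : Submodule k Λ) :=
  ⟨fun _ _ => Submodule.mem_top, fun _ _ _ => Submodule.mem_top⟩

/-- The smallest saturated subspace which contains `X`. -/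
def sg (F : Λ →ₛₗ[frobenius k p] Λ) (X : Submodule k Λ) : Submodule k Λ :=
  sInf {S | Sat F S ∧ X ≤ S}

theorem le_sg (X : Submodule k Λ) : X ≤ sg F X := le_sInf fun _ hS => hS.2

theorem sg_le {X S : Submodule k Λ} (hS : Sat F S) (h : X ≤ S) : sg F X ≤ S := sInf_le ⟨hS, h⟩

theorem sat_sg (X : Submodule k Λ) : Sat F (sg F X) where
  stable w hw := by
    rw [sg, Submodule.mem_sInf] at hw ⊢
    exact fun S hS => hS.1.stable w (hw S hS)
  sat a w hw := by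
    rw [sg, Submodule.mem_sInf] at hw ⊢
    exact fun S hS => hS.1.sat a w (hw S hS)

/-- The canonical chain. -/
def Ch (F : Λ →ₛₗ[frobenius k p] Λ) (D : Set (Λ →ₗ[k] Λ)) (i : ℕ) : Submodule k Λ :=
  (fun S => sg F (DS D S))^[i] ⊤

variable {D : Set (Λ →ₗ[k] Λ)}

theorem Ch_succ (i : ℕ) : Ch F D (i + 1) = sg F (DS D (Ch F D i)) := by
  unfold Ch
  rw [Function.iterate_succ_apply']

theorem sat_Ch (i : ℕ) : Sat F (Ch F D i) := by
  cases i with
  | zero => exact sat_top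
  | succ i =>
    rw [Ch_succ]
    exact sat_sg _

theorem map_mem_Ch {δ : Λ →ₗ[k] Λ} (hδ : δ ∈ D) {i : ℕ} {w : Λ} (hw : w ∈ Ch F D i) :
    δ w ∈ Ch F D (i + 1) := by
  rw [Ch_succ]
  exact le_sg _ (mem_DS hδ hw)

theorem sg_mono {X Y : Submodule k Λ} (h : X ≤ Y) : sg F X ≤ sg F Y :=
  sg_le (sat_sg Y) (h.trans (le_sg Y))

theorem Ch_anti (i : ℕ) : Ch F D (i + 1) ≤ Ch F D i := by
  induction i with
  | zero => exact le_top
  | succ i ih =>
    have h1 : Ch F D (i + 1 + 1) = sg F (DS D (Ch F D (i + 1))) := Ch_succ (i + 1)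
    have h2 : Ch F D (i + 1) = sg F (DS D (Ch F D i)) := Ch_succ i
    rw [h1]
    conv_rhs => rw [h2]
    exact sg_mono (DS_mono ih)

theorem map_mem_Ch' {δ : Λ →ₗ[k] Λ} (hδ : δ ∈ D) {i : ℕ} {w : Λ} (hw : w ∈ Ch F D i) :
    δ w ∈ Ch F D i := Ch_anti i (map_mem_Ch hδ hw)

/-- Operators which commute with `F` and normalize `D` keep the chain. -/
theorem Ch_equiv {g : Λ →ₗ[k] Λ} (hg : ∀ w, g (F w) = F (g w))
    (hn : ∀ δ ∈ D, ∃ δ' ∈ D, ∀ w, g (δ w) = δ' (g w)) (i : ℕ) {w : Λ} (hw : w ∈ Ch F D i) :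
    g w ∈ Ch F D i := by
  induction i generalizing w with
  | zero => exact Submodule.mem_top
  | succ i ih =>
    have h1 : Ch F D (i + 1) ≤ (Ch F D (i + 1)).comap g := by
      conv_lhs => rw [Ch_succ]
      refine sg_le ⟨fun w hw => ?_, fun a w hw => ?_⟩ (DS_le fun δ hδ w hw => ?_)
      · rw [Submodule.mem_comap] at hw ⊢
        rw [hg]
        exact (sat_Ch _).stable _ hw
      · rw [Submodule.mem_comap] at hw ⊢
        rw [map_sub, map_smul, hg] at hw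
        exact (sat_Ch _).sat a _ hw
      · rw [Submodule.mem_comap]
        obtain ⟨δ', hδ', h2⟩ := hn δ hδ
        rw [h2]
        exact map_mem_Ch hδ' (ih hw)
    exact h1 hw

/-- The step of the chain. -/
def Step (F : Λ →ₛₗ[frobenius k p] Λ) (D : Set (Λ →ₗ[k] Λ)) : Prop :=
  ∀ S : Submodule k Λ, Sat F S → (∀ δ ∈ D, ∀ w ∈ S, δ w ∈ S) → S ≠ ⊥ →
    ∃ T : Submodule k Λ, Sat F T ∧ T ≤ S ∧ (∀ δ ∈ D, ∀ w ∈ S, δ w ∈ T) ∧
      ∃ w ∈ S, ∀ s ∈ T, ∀ w', w ≠ s + F w'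

/-- **The chain is finite.** -/
theorem Ch_eq_bot (h : Step F D) {T : Submodule k Λ} (hT : ∀ w, w ∈ T ↔ ∃ w', w = F w')
    [FiniteDimensional k (Λ ⧸ T)] : Ch F D (Module.finrank k (Λ ⧸ T)) = ⊥ := by
  have hdrop : ∀ i, Ch F D i ≠ ⊥ → (Ch F D (i + 1)).map T.mkQ < (Ch F D i).map T.mkQ := by
    intro i hi
    obtain ⟨T', hT', hle, hD', w, hw, hw'⟩ :=
      h (Ch F D i) (sat_Ch i) (fun δ hδ w hw => map_mem_Ch' hδ hw) hi
    have h1 : Ch F D (i + 1) ≤ T' := by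
      rw [Ch_succ]
      exact sg_le hT' (DS_le hD')
    refine lt_of_le_of_ne (Submodule.map_mono (Ch_anti i)) fun h2 => ?_
    have h3 : T.mkQ w ∈ (Ch F D (i + 1)).map T.mkQ := by
      rw [h2]
      exact Submodule.mem_map_of_mem hw
    obtain ⟨s, hs, h4⟩ := Submodule.mem_map.1 h3
    have h5 : w - s ∈ T := by
      rw [← Submodule.Quotient.mk_eq_zero, Submodule.Quotient.mk_sub, sub_eq_zero]
      exact h4.symm
    obtain ⟨w', h6⟩ := (hT _).1 h5
    exact hw' s (h1 hs) w' (by rw [← h6]; abel)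
  have key : ∀ i, Ch F D i = ⊥ ∨
      Module.finrank k ((Ch F D i).map T.mkQ) + i ≤ Module.finrank k (Λ ⧸ T) := by
    intro i
    induction i with
    | zero => exact Or.inr (by rw [add_zero]; exact Submodule.finrank_le _)
    | succ i ih =>
      by_cases hi : Ch F D i = ⊥
      · exact Or.inl (le_bot_iff.1 (hi ▸ Ch_anti i))
      · rcases ih with h1 | h1
        · exact absurd h1 hi
        · have h2 := Submodule.finrank_lt_finrank_of_lt (hdrop i hi)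
          exact Or.inr (by omega)
  rcases key (Module.finrank k (Λ ⧸ T)) with h1 | h1
  · exact h1
  · by_contra hne
    obtain ⟨T', hT', hle, hD', w, hw, hw'⟩ := h _ (sat_Ch _) (fun δ hδ w hw => map_mem_Ch' hδ hw) hne
    have h2 : Module.finrank k ((Ch F D (Module.finrank k (Λ ⧸ T))).map T.mkQ) = 0 := by omega
    rw [Submodule.finrank_eq_zero] at h2
    have h3 : T.mkQ w ∈ (Ch F D (Module.finrank k (Λ ⧸ T))).map T.mkQ := Submodule.mem_map_of_mem hw
    rw [h2, Submodule.mem_bot, Submodule.mkQ_apply, Submodule.Quotient.mk_eq_zero] at h3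
    obtain ⟨w', h6⟩ := (hT _).1 h3
    exact hw' 0 (zero_mem _) w' (by rw [zero_add]; exact h6)

section Restrict

variable {S : Submodule k Λ}

/-- Restriction of `F`. -/
def rF (F : Λ →ₛₗ[frobenius k p] Λ) (S : Submodule k Λ) (hS : ∀ w ∈ S, F w ∈ S) :
    S →ₛₗ[frobenius k p] S :=
  (F.domRestrict S).codRestrict S fun w => hS w w.2

theorem rF_apply (hS : ∀ w ∈ S, F w ∈ S) (w : S) : ((rF F S hS w : S) : Λ) = F w := rfl

/-- Restrictions of operators. -/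
def rD (D : Set (Λ →ₗ[k] Λ)) (S : Submodule k Λ) : Set (S →ₗ[k] S) :=
  {δ' | ∃ δ ∈ D, ∀ w, ((δ' w : S) : Λ) = δ w}

theorem rD_nil (m : ℕ) :
    ((DS (rD D S))^[m] ⊤).map S.subtype ≤ (DS D)^[m] ⊤ := by
  induction m with
  | zero => exact le_top
  | succ m ih =>
    rw [Function.iterate_succ_apply', Function.iterate_succ_apply', Submodule.map_le_iff_le_comap]
    refine DS_le ?_
    rintro δ' ⟨δ, hδ, h1⟩ w hw
    rw [Submodule.mem_comap, Submodule.subtype_apply, h1]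
    exact mem_DS hδ (ih (Submodule.mem_map_of_mem hw))

end Restrict

/-- From the restriction to `S` to a step. -/
theorem step_of {S : Submodule k Λ} (hS : Sat F S) (hD : ∀ δ ∈ D, ∀ w ∈ S, δ w ∈ S)
    (h : ∃ T : Submodule k S, T ≠ ⊤ ∧ (∀ w ∈ T, rF F S hS.stable w ∈ T) ∧
      (∀ (a : k) (w : S), rF F S hS.stable w - a • w ∈ T → w ∈ T) ∧
      (∀ δ ∈ rD D S, ∀ w, δ w ∈ T) ∧ ∃ w : S, ∀ s ∈ T, ∀ w', w ≠ s + rF F S hS.stable w') :
    ∃ T : Submodule k Λ, Sat F T ∧ T ≤ S ∧ (∀ δ ∈ D, ∀ w ∈ S, δ w ∈ T) ∧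
      ∃ w ∈ S, ∀ s ∈ T, ∀ w', w ≠ s + F w' := by
  obtain ⟨T, -, h2, h3, h4, w₀, h5⟩ := h
  have hTS : T.map S.subtype ≤ S := by
    rintro _ ⟨w, -, rfl⟩
    exact w.2
  have hmem : ∀ w, ∀ hw : w ∈ S, (⟨w, hw⟩ : S) ∈ T ↔ w ∈ T.map S.subtype := by
    intro w hw
    constructor
    · exact fun h1 => ⟨⟨w, hw⟩, h1, rfl⟩
    · rintro ⟨w', hw', h1⟩
      have : w' = ⟨w, hw⟩ := Subtype.ext h1
      rwa [← this]
  refine ⟨T.map S.subtype, ⟨?_, fun a w hw => ?_⟩, hTS, fun δ hδ w hw => ?_, w₀, w₀.2,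
    fun s hs w' h1 => ?_⟩
  · rintro _ ⟨w, hw, rfl⟩
    exact ⟨_, h2 w hw, rfl⟩
  · have hwS : w ∈ S := hS.sat a w (hTS hw)
    rw [← hmem w hwS]
    refine h3 a ⟨w, hwS⟩ ?_
    have h6 : rF F S hS.stable ⟨w, hwS⟩ - a • (⟨w, hwS⟩ : S) = ⟨F w - a • w, hTS hw⟩ := rfl
    rw [h6, hmem]
    exact hw
  · rw [← hmem _ (hD δ hδ w hw)]
    let δ' : S →ₗ[k] S := δ.restrict (hD δ hδ)
    exact h4 δ' ⟨δ, hδ, fun w => rfl⟩ ⟨w, hw⟩
  · have hsS : s ∈ S := hTS hs
    have hFw : F w' ∈ S := by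
      have e : F w' = w₀ - s := by rw [h1]; abel
      rw [e]
      exact sub_mem w₀.2 hsS
    have hw'S : w' ∈ S := hS.of_F hFw
    exact h5 ⟨s, hsS⟩ ((hmem s hsS).2 hs) ⟨w', hw'S⟩ (Subtype.ext h1)

variable {N : Λ → ℝ}

/-- **The step for one norm.** -/
theorem step_FN [IsAlgClosed k] (h : FN p F N) {G : Set Λ} (hGf : G.Finite)
    (hG : Gen F G (⊤ : Submodule k Λ)) (hD : ∀ δ ∈ D, ∀ w, N (δ w) ≤ N w)
    (hV : ∀ δ ∈ D, ∃ δ' ∈ D, ∀ w, δ (F w) = F (δ' w)) {e : ℕ}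
    (he : ∀ δ ∈ D, ∀ w, δ (F^[e] w) = 0) {n : ℕ} (hnil : (DS D)^[n] ⊤ = ⊥) : Step F D := by
  intro S hS hDS hne
  have hsurj : RingHomSurjective (frobenius k p) :=
    ⟨fun c => by
      obtain ⟨d, hd⟩ := IsAlgClosed.exists_pow_nat_eq c hp.out.pos
      exact ⟨d, hd⟩⟩
  obtain ⟨G', hG'f, hG'⟩ := fg_of_stable hGf hG hS.stable
  have hGS : (Subtype.val ⁻¹' G' : Set S).Finite := hG'f.preimage Subtype.val_injective.injOn
  have hGen : Gen (rF F S hS.stable) (Subtype.val ⁻¹' G' : Set S) ⊤ := by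
    refine ⟨fun _ _ => Submodule.mem_top, fun S' hS' hGS' w _ => ?_⟩
    have h1 : S ≤ S'.map S.subtype := by
      refine hG'.2 _ ?_ ?_
      · rintro _ ⟨w, hw, rfl⟩
        exact ⟨_, hS' w hw, rfl⟩
      · intro g hg
        exact ⟨⟨g, hG'.1 hg⟩, hGS' hg, rfl⟩
    obtain ⟨w', hw', h2⟩ := h1 w.2
    have : w' = w := Subtype.ext h2
    rwa [← this]
  obtain ⟨w₀, hw₀, hw₀'⟩ : ∃ w ∈ S, w ≠ 0 := by
    by_contra hcon
    push Not at hcon
    exact hne ((Submodule.eq_bot_iff S).2 hcon)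
  have hFN : FN p (rF F S hS.stable) fun w : S => N w :=
    { nonneg := fun w => h.nonneg w
      add := fun w w' => h.add w w'
      smul := fun c w => h.smul c w
      frob := fun w => h.frob w
      pos := fun w hw => Subtype.ext (h.pos w hw) }
  have hiter : ∀ (m : ℕ) (w : S), (((rF F S hS.stable)^[m] w : S) : Λ) = F^[m] w := by
    intro m
    induction m with
    | zero => exact fun w => rfl
    | succ m ih =>
      intro w
      rw [Function.iterate_succ_apply', Function.iterate_succ_apply', rF_apply, ih]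
  have hTne := map_ne_top (F := rF F S hS.stable) (N := fun w : S => N w) (fun w => h.nonneg w)
    (fun w w' => h.add w w') (fun c w => h.smul c w) (fun w => (h.frob w).ge)
    (fun w hw => Subtype.ext (h.pos w hw)) hGS hGen
    ⟨⟨w₀, hw₀⟩, fun h1 => hw₀' (congrArg Subtype.val h1)⟩
  obtain ⟨T, h1, h2, h3, h4, h5⟩ := exists_sat hFN (D := rD D S) hGS
    (fun S' hS' hGS' => top_le_iff.1 (hGen.2 S' hS' hGS'))
    ⟨⟨w₀, hw₀⟩, fun h1 => hw₀' (congrArg Subtype.val h1)⟩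
    (by
      rintro δ' ⟨δ, hδ, h1⟩ w
      show N ((δ' w : S) : Λ) ≤ N w
      rw [h1]
      exact hD δ hδ w)
    (by
      rintro δ' ⟨δ, hδ, h1⟩
      obtain ⟨ε, hε, h2⟩ := hV δ hδ
      refine ⟨ε.restrict (hDS ε hε), ⟨ε, hε, fun w => rfl⟩, fun w => Subtype.ext ?_⟩
      rw [h1, rF_apply, rF_apply, h2]
      rfl)
    (e := e)
    (by
      rintro δ' ⟨δ, hδ, h1⟩ w
      apply Subtype.ext
      rw [h1, hiter]
      exact he δ hδ w)
    (n := n)
    (by
      have h1 := rD_nil (D := D) (S := S) n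
      rw [hnil] at h1
      rw [eq_bot_iff]
      intro w hw
      have h2 := h1 (Submodule.mem_map_of_mem hw)
      rw [Submodule.mem_bot] at h2 ⊢
      exact Subtype.ext h2)
  refine step_of hS hDS ⟨T, h1, h2, h3, h4, h5 ?_⟩
  by_contra hcon
  push Not at hcon
  refine hTne (top_le_iff.1 fun w _ => ?_)
  obtain ⟨w', h6⟩ := hcon w
  rw [h6]
  exact Submodule.mem_map_of_mem Submodule.mem_top

/-- **The step for a decreasing family of norms.** -/
theorem step_SN [IsAlgClosed k] {N : ℕ → Λ → ℝ} (h : SN p F N) {G : Set Λ} (hGf : G.Finite)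
    (hG : Gen F G (⊤ : Submodule k Λ)) {A x₀ : ℕ}
    (hD : ∀ δ ∈ D, ∀ x, x₀ ≤ x → ∀ w, N (x + A) (δ w) ≤ N x w)
    (hV : ∀ δ ∈ D, ∃ δ' ∈ D, ∀ w, δ (F w) = F (δ' w)) {e : ℕ}
    (he : ∀ δ ∈ D, ∀ w, δ (F^[e] w) = 0) {n : ℕ} (hnil : (DS D)^[n] ⊤ = ⊥) : Step F D := by
  intro S hS hDS hne
  have hsurj : RingHomSurjective (frobenius k p) :=
    ⟨fun c => by
      obtain ⟨d, hd⟩ := IsAlgClosed.exists_pow_nat_eq c hp.out.pos
      exact ⟨d, hd⟩⟩
  obtain ⟨G', hG'f, hG'⟩ := fg_of_stable hGf hG hS.stable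
  have hGS : (Subtype.val ⁻¹' G' : Set S).Finite := hG'f.preimage Subtype.val_injective.injOn
  have hGen : Gen (rF F S hS.stable) (Subtype.val ⁻¹' G' : Set S) ⊤ := by
    refine ⟨fun _ _ => Submodule.mem_top, fun S' hS' hGS' w _ => ?_⟩
    have h1 : S ≤ S'.map S.subtype := by
      refine hG'.2 _ ?_ ?_
      · rintro _ ⟨w, hw, rfl⟩
        exact ⟨_, hS' w hw, rfl⟩
      · intro g hg
        exact ⟨⟨g, hG'.1 hg⟩, hGS' hg, rfl⟩
    obtain ⟨w', hw', h2⟩ := h1 w.2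
    have : w' = w := Subtype.ext h2
    rwa [← this]
  obtain ⟨w₀, hw₀, hw₀'⟩ : ∃ w ∈ S, w ≠ 0 := by
    by_contra hcon
    push Not at hcon
    exact hne ((Submodule.eq_bot_iff S).2 hcon)
  have hFN : SN p (rF F S hS.stable) fun x (w : S) => N x w :=
    { nonneg := fun x w => h.nonneg x w
      anti := fun x y w hxy => h.anti x y w hxy
      add := fun x w w' => h.add x w w'
      smul := fun x c w => h.smul x c w
      frob := fun x w => h.frob x w
      pos := fun x w hw => Subtype.ext (h.pos x w hw) }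
  have hiter : ∀ (m : ℕ) (w : S), (((rF F S hS.stable)^[m] w : S) : Λ) = F^[m] w := by
    intro m
    induction m with
    | zero => exact fun w => rfl
    | succ m ih =>
      intro w
      rw [Function.iterate_succ_apply', Function.iterate_succ_apply', rF_apply, ih]
  have hTne := map_ne_top (F := rF F S hS.stable) (N := fun w : S => N 0 w)
    (fun w => h.nonneg 0 w) (fun w w' => h.add 0 w w') (fun c w => h.smul 0 c w)
    (fun w => by
      have h1 := h.frob 0 w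
      have h2 : cx p 0 = 0 := Nat.le_zero.1 (cx_le hp.out.two_le 0)
      rw [h2] at h1
      exact h1.ge)
    (fun w hw => Subtype.ext (h.pos 0 w hw)) hGS hGen
    ⟨⟨w₀, hw₀⟩, fun h1 => hw₀' (congrArg Subtype.val h1)⟩
  obtain ⟨T, h1, h2, h3, h4, h5⟩ := exists_sat_shift hFN (D := rD D S) (A := A) (x₀ := x₀) hGS
    (fun S' hS' hGS' => top_le_iff.1 (hGen.2 S' hS' hGS'))
    ⟨⟨w₀, hw₀⟩, fun h1 => hw₀' (congrArg Subtype.val h1)⟩
    (by
      rintro δ' ⟨δ, hδ, h1⟩ x hx w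
      show N (x + A) ((δ' w : S) : Λ) ≤ N x w
      rw [h1]
      exact hD δ hδ x hx w)
    (by
      rintro δ' ⟨δ, hδ, h1⟩
      obtain ⟨ε, hε, h2⟩ := hV δ hδ
      refine ⟨ε.restrict (hDS ε hε), ⟨ε, hε, fun w => rfl⟩, fun w => Subtype.ext ?_⟩
      rw [h1, rF_apply, rF_apply, h2]
      rfl)
    (e := e)
    (by
      rintro δ' ⟨δ, hδ, h1⟩ w
      apply Subtype.ext
      rw [h1, hiter]
      exact he δ hδ w)
    (n := n)
    (by
      have h1 := rD_nil (D := D) (S := S) n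
      rw [hnil] at h1
      rw [eq_bot_iff]
      intro w hw
      have h2 := h1 (Submodule.mem_map_of_mem hw)
      rw [Submodule.mem_bot] at h2 ⊢
      exact Subtype.ext h2)
  refine step_of hS hDS ⟨T, h1, h2, h3, h4, h5 ?_⟩
  by_contra hcon
  push Not at hcon
  refine hTne (top_le_iff.1 fun w _ => ?_)
  obtain ⟨w', h6⟩ := hcon w
  rw [h6]
  exact Submodule.mem_map_of_mem Submodule.mem_top

end Pool.Agent.TXN
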