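import Pool.Agent.Lib.TXN.Shift

/-!
# Norms and ties: finiteness

`fg_of_stable`: the subspaces stable under `F` of a finitely generated `Λ` are finitely generated;
`map_ne_top`: `F Λ ≠ Λ`.
-/

set_option autoImplicit false

open Submodule

namespace Pool.Agent.TXN

universe u v

variable {k : Type u} {Λ : Type v} [Field k] {p : ℕ} [hp : Fact p.Prime] [CharP k p]
  [AddCommGroup Λ] [Module k Λ] {F : Λ →ₛₗ[frobenius k p] Λ}

/-- `S` is generated by the set `G`. -/
def Gen (F : Λ →ₛₗ[frobenius k p] Λ) (G : Set Λ) (S : Submodule k Λ) : Prop :=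
  G ⊆ S ∧ ∀ S' : Submodule k Λ, (∀ w ∈ S', F w ∈ S') → G ⊆ S' → S ≤ S'

section

variable [RingHomSurjective (frobenius k p)]

theorem fg_Gm {X : Submodule k Λ} (hX : X.FG) (m : ℕ) : (Gm F X m).FG := by
  induction m with
  | zero => exact hX
  | succ m ih => exact hX.sup (ih.map F)

theorem Gm_step {X : Submodule k Λ} {m : ℕ} {w : Λ} (hw : w ∈ Gm F X m) :
    F w ∈ Gm F X (m + 1) := Submodule.mem_sup_right (Submodule.mem_map_of_mem hw)

theorem iter_mem {X : Submodule k Λ} {x : Λ} (hx : x ∈ X) (m : ℕ) : F^[m] x ∈ Gm F X m := by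
  induction m with
  | zero => exact hx
  | succ m ih =>
    rw [Function.iterate_succ_apply']
    exact Gm_step ih

/-- The leading term. -/
theorem exists_lead {X : Submodule k Λ} {m : ℕ} {w : Λ} (hw : w ∈ Gm F X (m + 1)) :
    ∃ x ∈ X, ∃ l ∈ Gm F X m, w = F^[m + 1] x + l := by
  induction m generalizing w with
  | zero =>
    obtain ⟨x, hx, y, hy, rfl⟩ := Submodule.mem_sup.1 hw
    obtain ⟨z, hz, rfl⟩ := Submodule.mem_map.1 hy
    exact ⟨z, hz, x, hx, by rw [zero_add, Function.iterate_one, add_comm]⟩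
  | succ m ih =>
    obtain ⟨x, hx, y, hy, rfl⟩ := Submodule.mem_sup.1 hw
    obtain ⟨z, hz, rfl⟩ := Submodule.mem_map.1 hy
    obtain ⟨t, ht, l, hl, rfl⟩ := ih hz
    refine ⟨t, ht, x + F l, add_mem (le_Gm X _ hx) (Gm_step hl), ?_⟩
    rw [map_add, Function.iterate_succ_apply' F (m + 1)]
    abel

omit [RingHomSurjective (frobenius k p)] in
/-- The `m`-th iterate is additive. -/
theorem iter_add (m : ℕ) (x y : Λ) : F^[m] (x + y) = F^[m] x + F^[m] y := by
  induction m with
  | zero => rfl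
  | succ m ih => rw [Function.iterate_succ_apply', ih, map_add, Function.iterate_succ_apply',
      Function.iterate_succ_apply']

omit [RingHomSurjective (frobenius k p)] in
theorem iter_smul (m : ℕ) (c : k) (x : Λ) : F^[m] (c • x) = c ^ p ^ m • F^[m] x := by
  induction m with
  | zero => rw [pow_zero, pow_one]; rfl
  | succ m ih =>
    rw [Function.iterate_succ_apply', ih, LinearMap.map_smulₛₗ, Function.iterate_succ_apply',
      frobenius_def, ← pow_mul, ← pow_succ]

omit [RingHomSurjective (frobenius k p)] in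
theorem iter_zero (m : ℕ) : F^[m] (0 : Λ) = 0 := by
  induction m with
  | zero => rfl
  | succ m ih => rw [Function.iterate_succ_apply', ih, map_zero]

/-- Leading coefficients of `S` in degree `m + 1`. -/
def Am (F : Λ →ₛₗ[frobenius k p] Λ) (X S : Submodule k Λ) (m : ℕ) : Submodule k Λ where
  carrier := {x | x ∈ X ∧ F^[m + 1] x ∈ S ⊔ Gm F X m}
  add_mem' := by
    rintro a b ⟨h1, h2⟩ ⟨h3, h4⟩
    refine ⟨add_mem h1 h3, ?_⟩
    rw [iter_add]
    exact add_mem h2 h4
  zero_mem' := ⟨zero_mem _, by rw [iter_zero]; exact zero_mem _⟩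
  smul_mem' := by
    rintro c a ⟨h1, h2⟩
    refine ⟨Submodule.smul_mem _ c h1, ?_⟩
    rw [iter_smul]
    exact Submodule.smul_mem _ _ h2

theorem Am_succ {X S : Submodule k Λ} (hS : ∀ w ∈ S, F w ∈ S) (m : ℕ) :
    Am F X S m ≤ Am F X S (m + 1) := by
  rintro x ⟨h1, h2⟩
  refine ⟨h1, ?_⟩
  obtain ⟨s, hs, l, hl, h3⟩ := Submodule.mem_sup.1 h2
  rw [Function.iterate_succ_apply', ← h3, map_add]
  exact add_mem (Submodule.mem_sup_left (hS s hs)) (Submodule.mem_sup_right (Gm_step hl))

/-- **Noether.** -/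
theorem fg_of_stable {G : Set Λ} (hGf : G.Finite) (hG : Gen F G (⊤ : Submodule k Λ))
    {S : Submodule k Λ} (hS : ∀ w ∈ S, F w ∈ S) : ∃ G' : Set Λ, G'.Finite ∧ Gen F G' S := by
  set X := Submodule.span k G with hX
  have hXfg : X.FG := Submodule.fg_span hGf
  have htop : ∀ w : Λ, w ∈ gen F X := fun w =>
    hG.2 (gen F X) (fun w hw => gen_stable hw) (fun g hg => le_gen _ (Submodule.subset_span hg))
      Submodule.mem_top
  -- the leading coefficients are stationary
  obtain ⟨m₁, hm₁⟩ : ∃ m₁, ∀ m, m₁ ≤ m → Am F X S (m + 1) ≤ Am F X S m := by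
    have hmono : Monotone (Am F X S) := monotone_nat_of_le_succ (Am_succ hS)
    have hfin : FiniteDimensional k X := ⟨(Submodule.fg_top X).2 hXfg⟩
    set f : ℕ →o Submodule k X := ⟨fun m => (Am F X S m).comap X.subtype, fun a b hab =>
      Submodule.comap_mono (hmono hab)⟩ with hf
    obtain ⟨n, hn⟩ := monotone_stabilizes_iff_noetherian.2 (inferInstance : IsNoetherian k X) f
    refine ⟨n, fun m hm x hx => ?_⟩
    have h1 : f (m + 1) = f m := by rw [← hn m hm, ← hn (m + 1) (by omega)]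
    have h2 : (⟨x, hx.1⟩ : X) ∈ f (m + 1) := hx
    rw [h1] at h2
    exact h2
  -- generation
  have hfg : (S ⊓ Gm F X (m₁ + 1)).FG := by
    have hfin : FiniteDimensional k (Gm F X (m₁ + 1)) := ⟨(Submodule.fg_top _).2 (fg_Gm hXfg _)⟩
    have h1 : FiniteDimensional k (S ⊓ Gm F X (m₁ + 1) : Submodule k Λ) :=
      Submodule.finiteDimensional_inf_right _ _
    exact (Submodule.fg_top _).1 h1.1
  obtain ⟨G', hG'f, hG'⟩ := Submodule.fg_def.1 hfg
  refine ⟨G', hG'f, fun g hg => ?_, fun S' hS' hGS' w hw => ?_⟩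
  · have h1 : g ∈ S ⊓ Gm F X (m₁ + 1) := hG' ▸ Submodule.subset_span hg
    exact h1.1
  · have hle : S ⊓ Gm F X (m₁ + 1) ≤ S' := by
      rw [← hG']
      exact Submodule.span_le.2 hGS'
    have key : ∀ m, S ⊓ Gm F X m ≤ S' := by
      intro m
      induction m with
      | zero => exact le_trans (inf_le_inf le_rfl (Gm_mono (by omega))) hle
      | succ m ih =>
        rcases Nat.lt_or_ge m₁ m with hm | hm
        · rintro s ⟨hs1, hs2⟩
          obtain ⟨x, hx, l, hl, rfl⟩ := exists_lead hs2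
          obtain ⟨q, rfl⟩ : ∃ q, m = q + 1 := ⟨m - 1, by omega⟩
          have hxA : x ∈ Am F X S (q + 1) := by
            refine ⟨hx, ?_⟩
            have h1 : F^[q + 1 + 1] x = (F^[q + 1 + 1] x + l) - l := by abel
            rw [h1]
            exact sub_mem (Submodule.mem_sup_left hs1) (Submodule.mem_sup_right hl)
          obtain ⟨-, hx2⟩ := hm₁ q (by omega) hxA
          obtain ⟨s', hs', l', hl', h3⟩ := Submodule.mem_sup.1 hx2
          have hs'2 : s' ∈ S ⊓ Gm F X (q + 1) := by
            refine ⟨hs', ?_⟩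
            have e : s' = F^[q + 1] x - l' := by rw [← h3]; abel
            rw [e]
            exact sub_mem (iter_mem hx _) (Gm_mono (by omega) hl')
          have e2 : F^[q + 1 + 1] x + l = F s' + (F l' + l) := by
            rw [Function.iterate_succ_apply', ← h3, map_add]
            abel
          have h4 : F l' + l ∈ S ⊓ Gm F X (q + 1) := by
            refine ⟨?_, add_mem (Gm_step hl') hl⟩
            have e3 : F l' + l = (F^[q + 1 + 1] x + l) - F s' := by rw [e2]; abel
            rw [e3]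
            exact sub_mem hs1 (hS s' hs')
          rw [e2]
          exact add_mem (hS' s' (ih hs'2)) (ih h4)
        · exact le_trans (inf_le_inf le_rfl (Gm_mono (by omega))) hle
    obtain ⟨m, hm⟩ := htop w
    exact key m ⟨hw, hm⟩

/-- `F Λ ≠ Λ`. -/
theorem map_ne_top {N : Λ → ℝ} (h0 : ∀ w, 0 ≤ N w) (hadd : ∀ w w', N (w + w') ≤ max (N w) (N w'))
    (hsm : ∀ (c : k) w, N (c • w) ≤ N w) (hF : ∀ w, p * N w ≤ N (F w))
    (hpos : ∀ w, N w = 0 → w = 0) {G : Set Λ} (hGf : G.Finite)
    (hG : Gen F G (⊤ : Submodule k Λ)) (hΛ : ∃ w : Λ, w ≠ 0) :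
    (⊤ : Submodule k Λ).map F ≠ ⊤ := by
  intro htp
  have hp1 : (1 : ℝ) < p := by exact_mod_cast hp.out.one_lt
  have hN0 : N (0 : Λ) = 0 := by
    refine le_antisymm ?_ (h0 0)
    have h3 := hF (0 : Λ)
    rw [map_zero] at h3
    have h4 := h0 (0 : Λ)
    nlinarith
  set X := Submodule.span k G with hX
  have hXfg : X.FG := Submodule.fg_span hGf
  have htop : ∀ w : Λ, w ∈ gen F X := fun w =>
    hG.2 (gen F X) (fun w hw => gen_stable hw) (fun g hg => le_gen _ (Submodule.subset_span hg))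
      Submodule.mem_top
  -- a common level
  obtain ⟨m, hm⟩ : ∃ m, ∀ g ∈ G, g ∈ (Gm F X m).map F := by
    have h1 : ∀ g : Λ, ∃ m, g ∈ (Gm F X m).map F := fun g => by
      have h1 : g ∈ (⊤ : Submodule k Λ).map F := by rw [htp]; exact Submodule.mem_top
      obtain ⟨w, -, rfl⟩ := Submodule.mem_map.1 h1
      obtain ⟨m, hm⟩ := htop w
      exact ⟨m, Submodule.mem_map_of_mem hm⟩
    choose f hf using h1
    obtain ⟨b, hb⟩ := (hGf.image f).bddAbove
    exact ⟨b, fun g hg => Submodule.map_mono (Gm_mono (hb ⟨g, hg, rfl⟩)) (hf g)⟩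
  have hXm : X ≤ (Gm F X m).map F := Submodule.span_le.2 hm
  have hM : Gm F X m ≤ (Gm F X m).map F := by
    have key : ∀ n, n ≤ m → Gm F X n ≤ (Gm F X m).map F := by
      intro n
      induction n with
      | zero => exact fun _ => hXm
      | succ n ih => exact fun hn => sup_le hXm (Submodule.map_mono (Gm_mono (by omega)))
    exact key m le_rfl
  -- a sequence
  obtain ⟨w₀, hw₀, hw₀'⟩ : ∃ w ∈ Gm F X m, w ≠ 0 := by
    by_contra hcon
    push Not at hcon
    obtain ⟨w, hw⟩ := hΛ
    refine hw ?_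
    have h1 : gen F X ≤ ⊥ := gen_le (fun x hx => by
      rw [Submodule.mem_bot]
      exact hcon x (le_Gm X m hx)) fun w hw => by
        rw [Submodule.mem_bot] at hw ⊢
        rw [hw, map_zero]
    have h2 := h1 (htop w)
    rwa [Submodule.mem_bot] at h2
  have hstep : ∀ w : Gm F X m, ∃ w' : Gm F X m, F w' = w := fun w => by
    obtain ⟨w', hw', h1⟩ := Submodule.mem_map.1 (hM w.2)
    exact ⟨⟨w', hw'⟩, h1⟩
  choose V hV using hstep
  set s : ℕ → Gm F X m := fun j => V^[j] ⟨w₀, hw₀⟩ with hs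
  have hs1 : ∀ j, F (s (j + 1)) = s j := fun j => by
    simp only [hs]
    rw [Function.iterate_succ_apply']
    exact hV _
  have hsne : ∀ j, (s j : Λ) ≠ 0 := by
    intro j
    induction j with
    | zero => exact hw₀'
    | succ j ih =>
      intro h1
      refine ih ?_
      rw [← hs1, h1, map_zero]
  have hsN : ∀ j, N (s (j + 1)) < N (s j) := fun j => by
    have h1 := hF (s (j + 1))
    rw [hs1] at h1
    have h2 : 0 < N (s (j + 1)) := lt_of_le_of_ne (h0 _) fun h3 => hsne (j + 1) (hpos _ h3.symm)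
    nlinarith
  have hfin : FiniteDimensional k (Gm F X m) := ⟨(Submodule.fg_top _).2 (fg_Gm hXfg m)⟩
  set B : ℕ → Submodule k (Gm F X m) := fun j =>
    { carrier := {w | N w ≤ N (s j)}
      add_mem' := fun {a b} ha hb => (hadd a b).trans (max_le ha hb)
      zero_mem' := by
        show N ((0 : Gm F X m) : Λ) ≤ N (s j)
        rw [Submodule.coe_zero, hN0]
        exact h0 _
      smul_mem' := fun c w hw => (hsm c w).trans hw } with hB
  set f : ℕ →o (Submodule k (Gm F X m))ᵒᵈ := ⟨fun j => OrderDual.toDual (B j),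
    monotone_nat_of_le_succ fun j => by
      show B (j + 1) ≤ B j
      intro w hw
      exact le_trans (show N w ≤ N (s (j + 1)) from hw) (hsN j).le⟩ with hf
  obtain ⟨n, hn⟩ := monotone_stabilizes_iff_artinian.2 (inferInstance : IsArtinian k (Gm F X m)) f
  have h1 : B n = B (n + 1) := hn (n + 1) (by omega)
  have h2 : s n ∈ B n := show N (s n) ≤ N (s n) from le_rfl
  rw [h1] at h2
  exact absurd (show N (s n) ≤ N (s (n + 1)) from h2) (not_le.2 (hsN n))

end

end Pool.Agent.TXN
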